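import Pool.Agent.Helper93.PL.St

/-!
# Project PL: module CLM
-/

set_option autoImplicit false

namespace Pool.Agent.Helper87.PL

open Finset
open Pool.Agent.Helper61.PV Pool.Agent.Helper93.PL

/-- a small `δ` -/
theorem exists_delta (k : ℕ) {η : ℝ} (hη : 0 < η) : ∃ δ : ℝ, 0 < δ ∧ δ < 1 ∧
    (1 + δ) / (1 - δ) ^ k ≤ 1 + η ∧ 1 - η ≤ (1 - δ) / (1 + δ) ^ k := by
  have c1 : ContinuousAt (fun δ : ℝ => (1 + δ) / (1 - δ) ^ k) 0 := by
    refine ContinuousAt.div (by fun_prop) (by fun_prop) ?_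
    norm_num
  have c2 : ContinuousAt (fun δ : ℝ => (1 - δ) / (1 + δ) ^ k) 0 := by
    refine ContinuousAt.div (by fun_prop) (by fun_prop) ?_
    norm_num
  have t1 := c1.tendsto
  have t2 := c2.tendsto
  simp only [add_zero, sub_zero, one_pow, div_one] at t1 t2
  have e1 : ∀ᶠ δ : ℝ in nhds 0, (1 + δ) / (1 - δ) ^ k < 1 + η := t1.eventually_lt_const (by linarith)
  have e2 : ∀ᶠ δ : ℝ in nhds 0, 1 - η < (1 - δ) / (1 + δ) ^ k := t2.eventually_const_lt (by linarith)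
  have e3 : ∀ᶠ δ : ℝ in nhds 0, δ < 1 := eventually_lt_nhds one_pos
  obtain ⟨r, hr, h⟩ := Metric.eventually_nhds_iff.1 (e1.and (e2.and e3))
  have h1 := h (y := r / 2) (by rw [Real.dist_eq, sub_zero, abs_of_pos (by linarith)]; linarith)
  exact ⟨r / 2, by linarith, h1.2.2, h1.1.le, h1.2.1.le⟩

theorem sg_nonneg (W : ℕ) (T : Finset ℕ) : 0 ≤ sg W T := by
  unfold sg
  exact Finset.prod_nonneg fun m _ => by positivity

theorem Rc_le {d : ℕ} (W : ℕ) (F : Fin (d + 1) → ℤ) : Rc W F ≤ W := by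
  unfold Rc
  refine (Finset.card_filter_le _ _).trans ?_
  rw [Finset.card_range]

theorem log_le_Sz {H d : ℕ} (hH : 1 ≤ H) (hd : 1 ≤ d) : Real.log H ≤ Sz H d := by
  unfold Sz
  have h1 : 0 ≤ Real.log H := Real.log_natCast_nonneg H
  have h2 : (1 : ℝ) ≤ d := by exact_mod_cast hd
  have h3 : 0 ≤ Real.log (d + Real.log H) := Real.log_nonneg (by linarith)
  have h4 : 0 ≤ (d : ℝ) * Real.log (d + Real.log H) := by positivity
  linarith

theorem hClm (hCl1 : StCl1) (hCl2 : StCl2) (hMot : StMot) (_hCar : StCar) : StClm := by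
  intro k ε x hε hx
  obtain ⟨w₀, hw₀⟩ := hCl2 k (ε / 4) x (by linarith) hx
  refine ⟨w₀, ?_⟩
  intro w hw μ κ hμ hμx hκ hκ4
  set W : ℕ := primorial w with hW
  have hW1 : 1 ≤ W := primorial_pos w
  obtain ⟨S₀, hS₀, hS⟩ := hw₀ w hw μ hμ hμx
  set Q : ℝ := (x * W) ^ k + ε / 4 with hQ
  have hWr : (1 : ℝ) ≤ W := by exact_mod_cast hW1
  have hQpos : 0 < Q := by
    have : 0 ≤ (x * W) ^ k := by positivity
    linarith
  obtain ⟨δ, hδ0, hδ1, hδa, hδb⟩ := exists_delta k (η := ε / (4 * Q)) (by positivity)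
  obtain ⟨H₁, hH₁⟩ := hCl1 k W μ x κ δ hW1 hμ hμx hκ hκ4 hδ0 hδ1
  obtain ⟨H₂, hH₂⟩ := hMot k W x κ δ hW1 hx hκ (by linarith) hδ0 hδ1
  refine ⟨max (max H₁ H₂) (max 1 ⌈Real.exp (max S₀ ((1 + 8 / κ) / μ))⌉₊), ?_⟩
  intro H hH d hd hkd hpow F A h hC
  have hHa : H₁ ≤ H := le_trans (le_trans (le_max_left _ _) (le_max_left _ _)) hH
  have hHb : H₂ ≤ H := le_trans (le_trans (le_max_right _ _) (le_max_left _ _)) hH
  have hHc : 1 ≤ H := le_trans (le_trans (le_max_left _ _) (le_max_right _ _)) hH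
  have hHd : Real.exp (max S₀ ((1 + 8 / κ) / μ)) ≤ H :=
    le_trans (Nat.le_ceil _) (by exact_mod_cast le_trans (le_trans (le_max_right _ _) (le_max_right _ _)) hH)
  set S : ℝ := Sz H d with hSdef
  have hlog : max S₀ ((1 + 8 / κ) / μ) ≤ S := by
    refine le_trans ?_ (log_le_Sz hHc hd)
    rw [← Real.log_exp (max S₀ ((1 + 8 / κ) / μ))]
    exact Real.log_le_log (Real.exp_pos _) hHd
  have hSS : S₀ ≤ S := (le_max_left _ _).trans hlog
  have hSpos : 0 < S := hS₀.trans_le hSS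
  have hμS : 1 + 8 / κ ≤ μ * S := by
    have := (le_max_right _ _).trans hlog
    rwa [div_le_iff₀' hμ] at this
  set P : ℝ := ∏ i, (h i : ℝ) with hP
  have hP0 : 0 ≤ P := Finset.prod_nonneg fun i _ => Nat.cast_nonneg _
  set 𝒯 := (al W F (μ * S) (x * S)).powersetCard k with h𝒯
  have hS1 := hS S hSS d F
  set M₀ : ℝ := ((x - μ) * (Rc W F / Nat.totient W)) ^ k / k.factorial with hM₀
  set s : ℝ := (∑ T ∈ 𝒯, sg W T) / S ^ k with hs
  have hs1 : |s - M₀| ≤ ε / 4 := hS1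
  have hs0 : 0 ≤ s := div_nonneg (Finset.sum_nonneg fun T _ => sg_nonneg W T) (by positivity)
  have hsum : ∑ T ∈ 𝒯, sg W T = s * S ^ k := by
    rw [hs, div_mul_cancel₀]
    positivity
  -- bound for s
  have hM₀le : M₀ ≤ (x * W) ^ k := by
    have h1 : (Rc W F : ℝ) / Nat.totient W ≤ W := by
      have hφ : (1 : ℝ) ≤ Nat.totient W := by exact_mod_cast Nat.totient_pos.2 hW1
      have h2 : (Rc W F : ℝ) ≤ W := by exact_mod_cast Rc_le W F
      exact (div_le_self (Nat.cast_nonneg _) hφ).trans h2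
    have h0 : 0 ≤ (Rc W F : ℝ) / Nat.totient W := by positivity
    have h3 : (x - μ) * (Rc W F / Nat.totient W) ≤ x * W :=
      mul_le_mul (by linarith) h1 h0 hx.le
    have h4 : 0 ≤ (x - μ) * (Rc W F / Nat.totient W) := mul_nonneg (by linarith) h0
    have h5 : ((x - μ) * (Rc W F / Nat.totient W)) ^ k ≤ (x * W) ^ k := pow_le_pow_left₀ h4 h3 k
    have h6 : (1 : ℝ) ≤ k.factorial := by exact_mod_cast Nat.factorial_pos k
    exact (div_le_self (pow_nonneg h4 k) h6).trans h5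
  have hsQ : s ≤ Q := by
    have := (abs_le.1 hs1).2
    rw [hQ]
    linarith
  -- the moments
  set X : ℝ := ∑ g ∈ Bx A h, ((nP (lin W F g) (μ * S) (x * S)).choose k : ℝ) with hX
  have hX0 : 0 ≤ X := Finset.sum_nonneg fun g _ => Nat.cast_nonneg _
  have hmot : ∀ T ∈ 𝒯, |∑ g ∈ Bx A h, ∏ m ∈ T, thz (ev (lin W F g) m) - sg W T * P| ≤ δ * (sg W T * P) := by
    intro T hT
    rw [h𝒯, Finset.mem_powersetCard] at hT
    refine hH₂ H hHb d hd hkd hpow F A h hC T hT.2 ?_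
    intro m hm
    have hm' := hT.1 hm
    unfold al at hm'
    rw [Finset.mem_filter, Finset.mem_range] at hm'
    refine ⟨by linarith [hm'.2.1], ?_, hm'.2.2⟩
    have h1 : m ≤ ⌊x * S⌋₊ := by omega
    have h2 : (m : ℝ) ≤ (⌊x * S⌋₊ : ℝ) := by exact_mod_cast h1
    exact h2.trans (Nat.floor_le (by positivity))
  have hswap : ∑ T ∈ 𝒯, ∑ g ∈ Bx A h, ∏ m ∈ T, thz (ev (lin W F g) m) =
      ∑ g ∈ Bx A h, ∑ T ∈ 𝒯, ∏ m ∈ T, thz (ev (lin W F g) m) := Finset.sum_comm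
  have hup : ((1 - δ) * S) ^ k * X ≤ (1 + δ) * (s * S ^ k * P) := by
    calc ((1 - δ) * S) ^ k * X ≤ ∑ g ∈ Bx A h, ∑ T ∈ 𝒯, ∏ m ∈ T, thz (ev (lin W F g) m) := by
          rw [hX, Finset.mul_sum]
          exact Finset.sum_le_sum fun g hg => (hH₁ H hHa d hd F A h hC g hg).1
      _ = ∑ T ∈ 𝒯, ∑ g ∈ Bx A h, ∏ m ∈ T, thz (ev (lin W F g) m) := hswap.symm
      _ ≤ ∑ T ∈ 𝒯, (1 + δ) * (sg W T * P) := by
          refine Finset.sum_le_sum fun T hT => ?_
          have := (abs_le.1 (hmot T hT)).2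
          linarith
      _ = (1 + δ) * (s * S ^ k * P) := by
          rw [← Finset.mul_sum, ← Finset.sum_mul, hsum]
  have hlo : (1 - δ) * (s * S ^ k * P) ≤ ((1 + δ) * S) ^ k * X := by
    calc (1 - δ) * (s * S ^ k * P) = ∑ T ∈ 𝒯, (1 - δ) * (sg W T * P) := by
          rw [← Finset.mul_sum, ← Finset.sum_mul, hsum]
      _ ≤ ∑ T ∈ 𝒯, ∑ g ∈ Bx A h, ∏ m ∈ T, thz (ev (lin W F g) m) := by
          refine Finset.sum_le_sum fun T hT => ?_
          have := (abs_le.1 (hmot T hT)).1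
          linarith
      _ = ∑ g ∈ Bx A h, ∑ T ∈ 𝒯, ∏ m ∈ T, thz (ev (lin W F g) m) := hswap
      _ ≤ ((1 + δ) * S) ^ k * X := by
          rw [hX, Finset.mul_sum]
          exact Finset.sum_le_sum fun g hg => (hH₁ H hHa d hd F A h hC g hg).2
  have hSk : 0 < S ^ k := by positivity
  have h1δ : 0 < (1 - δ) ^ k := pow_pos (by linarith) k
  have h2δ : 0 < (1 + δ) ^ k := pow_pos (by linarith) k
  have hup2 : X ≤ (1 + δ) / (1 - δ) ^ k * (s * P) := by
    rw [div_mul_eq_mul_div, le_div_iff₀ h1δ]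
    rw [mul_pow] at hup
    have : S ^ k * (X * (1 - δ) ^ k) ≤ S ^ k * ((1 + δ) * (s * P)) := by linarith
    exact le_of_mul_le_mul_left this hSk
  have hlo2 : (1 - δ) / (1 + δ) ^ k * (s * P) ≤ X := by
    rw [div_mul_eq_mul_div, div_le_iff₀ h2δ]
    rw [mul_pow] at hlo
    have : S ^ k * ((1 - δ) * (s * P)) ≤ S ^ k * (X * (1 + δ) ^ k) := by linarith
    exact le_of_mul_le_mul_left this hSk
  have hsP : 0 ≤ s * P := mul_nonneg hs0 hP0
  have hη : ε / (4 * Q) * (s * P) ≤ ε / 4 * P := by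
    have h1 : ε / (4 * Q) * (s * P) = (s / Q) * (ε / 4 * P) := by
      field_simp
    rw [h1]
    have h2 : s / Q ≤ 1 := (div_le_one hQpos).2 hsQ
    exact mul_le_of_le_one_left (by positivity) h2
  have hA1 : X ≤ s * P + ε / 4 * P := by
    have := mul_le_mul_of_nonneg_right hδa hsP
    linarith
  have hA2 : s * P - ε / 4 * P ≤ X := by
    have := mul_le_mul_of_nonneg_right hδb hsP
    linarith
  have hB1 : s * P ≤ M₀ * P + ε / 4 * P := by
    have := mul_le_mul_of_nonneg_right (abs_le.1 hs1).2 hP0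
    linarith
  have hB2 : M₀ * P - ε / 4 * P ≤ s * P := by
    have := mul_le_mul_of_nonneg_right (abs_le.1 hs1).1 hP0
    linarith
  have hεP : 0 ≤ ε * P := by positivity
  rw [abs_le]
  constructor <;> linarith

end Pool.Agent.Helper87.PL
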