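import Pool.Agent.Helper93.PL.St

/-!
# Project PL: module FI1
-/

set_option autoImplicit false

namespace Pool.Agent.Helper87.PL

open Finset
open Pool.Agent.Helper61.PV Pool.Agent.Helper93.PL

open Classical in
theorem ncard {α : Type} (s : Finset α) (P : α → Prop) :
    Nat.card {c : α // c ∈ s ∧ P c} = #(s.filter P) :=
  Nat.subtype_card (s.filter P) (fun x => by simp)

theorem ncard_le {α : Type} (s : Finset α) (P Q R : α → Prop) (h : ∀ c ∈ s, P c → Q c ∨ R c) :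
    (Nat.card {c : α // c ∈ s ∧ P c} : ℝ) ≤ Nat.card {c : α // c ∈ s ∧ Q c} + Nat.card {c : α // c ∈ s ∧ R c} := by
  classical
  rw [ncard, ncard, ncard]
  have h1 : s.filter P ⊆ s.filter Q ∪ s.filter R := by
    intro c hc
    rw [mem_filter] at hc
    rw [mem_union, mem_filter, mem_filter]
    rcases h c hc.1 hc.2 with h2 | h2
    · exact Or.inl ⟨hc.1, h2⟩
    · exact Or.inr ⟨hc.1, h2⟩
  exact_mod_cast (card_le_card h1).trans (card_union_le _ _)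

theorem ev_dvd {d : ℕ} (c : Fin (d + 1) → ℤ) (a b : ℤ) : a - b ∣ ev c a - ev c b := by
  unfold ev
  rw [← Finset.sum_sub_distrib]
  refine Finset.dvd_sum fun i _ => ?_
  rw [← mul_sub]
  exact (sub_dvd_pow_sub_pow a b i).mul_left _

theorem nfd_nz {d : ℕ} {c : Fin (d + 1) → ℤ} (h : NFD c) {p : ℕ} (hp : p.Prime) : Nz c p < p := by
  have h1 : Nz c p ≤ p := by
    unfold Nz
    exact (card_filter_le _ _).trans (by rw [card_range])
  refine lt_of_le_of_ne h1 ?_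
  intro he
  obtain ⟨k, hk⟩ := h p hp.one_lt
  apply hk
  have h2 : (range p).filter (fun r : ℕ => (p : ℤ) ∣ ev c r) = range p := by
    apply eq_of_subset_of_card_le (filter_subset _ _)
    rw [card_range]
    exact he.ge
  have hp0 : (0 : ℤ) < p := by exact_mod_cast hp.pos
  have h3 : (k % p).toNat ∈ (range p).filter (fun r : ℕ => (p : ℤ) ∣ ev c r) := by
    rw [h2, mem_range]
    have := Int.emod_lt_of_pos k hp0
    have := Int.emod_nonneg k hp0.ne'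
    omega
  have h4 : (p : ℤ) ∣ ev c (k % p) := by
    have := (mem_filter.1 h3).2
    rwa [Int.toNat_of_nonneg (Int.emod_nonneg k hp0.ne')] at this
  have h5 : (p : ℤ) ∣ ev c k - ev c (k % p) := by
    refine dvd_trans ?_ (ev_dvd c k (k % p))
    exact Int.dvd_self_sub_emod
  have := dvd_add h5 h4
  simpa using this

theorem hFi1 (hTot : StTot) (hStw : StStw) (hTop : StTop) (hLow : StLow) : StFi1 := by
  intro j ε x hε hx
  have hε4 : 0 < ε / 4 := by linarith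
  obtain ⟨K, w₁, κ₀, hκ₀, hT⟩ := hTot j (ε / 4) x hε4 hx
  obtain ⟨w₂, hw₂⟩ := hStw (ε / 4) hε4
  obtain ⟨c', H₃, hc', hH₃⟩ := hLow (ε / 4) hε4
  refine ⟨K, max (max w₁ w₂) 1, ?_⟩
  intro w hw
  have hwa : w₁ ≤ w := le_trans (le_trans (le_max_left _ _) (le_max_left _ _)) hw
  have hwb : w₂ ≤ w := le_trans (le_trans (le_max_right _ _) (le_max_left _ _)) hw
  have hwc : 1 ≤ w := le_trans (le_max_right _ _) hw
  set κ : ℝ := min κ₀ (min (1 / 4) (ε / 4)) with hκ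
  set μ : ℝ := min κ₀ (min c' (x / 2)) with hμ
  have hκ0 : 0 < κ := lt_min hκ₀ (lt_min (by norm_num) hε4)
  have hκ1 : κ ≤ κ₀ := min_le_left _ _
  have hκ2 : κ ≤ 1 / 4 := (min_le_right _ _).trans (min_le_left _ _)
  have hκ3 : κ ≤ ε / 4 := (min_le_right _ _).trans (min_le_right _ _)
  have hμ0 : 0 < μ := lt_min hκ₀ (lt_min hc' (by linarith))
  have hμ1 : μ ≤ κ₀ := min_le_left _ _
  have hμ2 : μ ≤ c' := (min_le_right _ _).trans (min_le_left _ _)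
  have hμ3 : μ < x := by
    have : μ ≤ x / 2 := (min_le_right _ _).trans (min_le_right _ _)
    linarith
  obtain ⟨H₁, hH₁⟩ := hT w hwa κ μ hκ0 hκ1 hκ2 hμ0 hμ1 hμ3
  obtain ⟨H₂, hH₂⟩ := hw₂ w hwb
  refine ⟨max (max H₁ H₂) (max H₃ 1), ?_⟩
  intro H hH d hd hpow
  have hHa : H₁ ≤ H := le_trans (le_trans (le_max_left _ _) (le_max_left _ _)) hH
  have hHb : H₂ ≤ H := le_trans (le_trans (le_max_right _ _) (le_max_left _ _)) hH
  have hHc : H₃ ≤ H := le_trans (le_trans (le_max_left _ _) (le_max_right _ _)) hH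
  have hHd : 1 ≤ H := le_trans (le_trans (le_max_right _ _) (le_max_right _ _)) hH
  have hd1 : 1 ≤ d := by omega
  have hd1r : (1 : ℝ) ≤ d := by exact_mod_cast hd1
  have hlog : 0 ≤ Real.log H := Real.log_natCast_nonneg H
  have hS0 : 0 ≤ Sz H d := by
    unfold Sz
    have h3 : 0 ≤ Real.log (d + Real.log H) := Real.log_nonneg (by linarith)
    positivity
  -- the condition of `LOW`
  have hcond : (d : ℝ) * Real.log H ≤ (H : ℝ) ^ (1 / 3 : ℝ) := by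
    set Λ : ℝ := Real.log H + d with hΛ
    have hΛ1 : 1 ≤ Λ := by linarith
    have h1 : (d : ℝ) * Real.log H ≤ Λ ^ 2 := by
      have : (d : ℝ) * Real.log H ≤ Λ * Λ := by
        refine mul_le_mul ?_ ?_ hlog (by linarith) <;> linarith
      linarith [sq Λ]
    have h2 : (Λ ^ 2) ^ 3 ≤ H := by
      refine le_trans ?_ hpow
      rw [← pow_mul]
      exact pow_le_pow_right₀ hΛ1 (by omega)
    have h3 : Λ ^ 2 ≤ (H : ℝ) ^ (1 / 3 : ℝ) := by
      have h4 : ((Λ ^ 2) ^ 3) ^ (1 / 3 : ℝ) ≤ (H : ℝ) ^ (1 / 3 : ℝ) :=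
        Real.rpow_le_rpow (by positivity) h2 (by norm_num)
      have h5 : ((Λ ^ 2) ^ 3) ^ (1 / 3 : ℝ) = Λ ^ 2 := by
        rw [← Real.rpow_natCast (Λ ^ 2) 3, ← Real.rpow_mul (by positivity)]
        norm_num
      rwa [h5] at h4
    exact h1.trans h3
  obtain ⟨t1, t2⟩ := hH₁ H hHa d hd hpow
  have s1 := hH₂ H hHb d hd1
  have s2 := hTop d H κ hκ0
  have s3 := hH₃ H hHc d hd1 hcond
  have hN : (0 : ℝ) ≤ #(Bxx d H) := Nat.cast_nonneg _
  have s2' : (Nat.card {c : Fin (d + 1) → ℤ // c ∈ Bxx d H ∧ ¬ κ * H ≤ c (Fin.last d)} : ℝ) ≤ ε / 4 * #(Bxx d H) :=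
    s2.trans (mul_le_mul_of_nonneg_right hκ3 hN)
  -- equality of the two counts
  have hnP : ∀ c : Fin (d + 1) → ℤ, (¬ ∃ m : ℕ, 1 ≤ m ∧ (m : ℝ) ≤ c' * Sz H d ∧ (ev c m).toNat.Prime) →
      nP c 0 (x * Sz H d) = nP c (μ * Sz H d) (x * Sz H d) := by
    intro c hc
    unfold nP
    congr 1
    apply filter_congr
    intro m _
    constructor
    · rintro ⟨h1, h2⟩
      refine ⟨?_, h2⟩
      by_contra h3
      apply hc
      have h1' : 0 < m := by exact_mod_cast h1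
      refine ⟨m, h1', ?_, h2⟩
      exact (not_lt.1 h3).trans (mul_le_mul_of_nonneg_right hμ2 hS0)
    · rintro ⟨h1, h2⟩
      have : 0 ≤ μ * Sz H d := by positivity
      exact ⟨by linarith, h2⟩
  have hnz : ∀ c : Fin (d + 1) → ℤ, NFD c → ∀ p ∈ Pw w, Nz c p < p := by
    intro c hc p hp
    unfold Pw at hp
    exact nfd_nz hc (mem_filter.1 hp).2
  have a1 := ncard_le (Bxx d H)
    (fun c => NFD c ∧ nP c 0 (x * Sz H d) = j)
    (fun c => κ * H ≤ ((c (Fin.last d) : ℤ) : ℝ) ∧ (∀ p ∈ Pw w, Nz c p < p) ∧ nP c (μ * Sz H d) (x * Sz H d) = j)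
    (fun c => ¬ κ * H ≤ c (Fin.last d) ∨ ∃ m : ℕ, 1 ≤ m ∧ (m : ℝ) ≤ c' * Sz H d ∧ (ev c m).toNat.Prime)
    (by
      rintro c - ⟨h1, h2⟩
      by_cases h3 : ∃ m : ℕ, 1 ≤ m ∧ (m : ℝ) ≤ c' * Sz H d ∧ (ev c m).toNat.Prime
      · exact Or.inr (Or.inr h3)
      · by_cases h4 : κ * H ≤ ((c (Fin.last d) : ℤ) : ℝ)
        · exact Or.inl ⟨h4, hnz c h1, by rw [← hnP c h3, h2]⟩
        · exact Or.inr (Or.inl h4))
  have a2 := ncard_le (Bxx d H)
    (fun c => κ * H ≤ ((c (Fin.last d) : ℤ) : ℝ) ∧ (∀ p ∈ Pw w, Nz c p < p) ∧ nP c (μ * Sz H d) (x * Sz H d) = j)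
    (fun c => NFD c ∧ nP c 0 (x * Sz H d) = j)
    (fun c => ((∀ p ∈ Pw w, Nz c p < p) ∧ ¬ NFD c) ∨
      ∃ m : ℕ, 1 ≤ m ∧ (m : ℝ) ≤ c' * Sz H d ∧ (ev c m).toNat.Prime)
    (by
      rintro c - ⟨_, h2, h3⟩
      by_cases h4 : ∃ m : ℕ, 1 ≤ m ∧ (m : ℝ) ≤ c' * Sz H d ∧ (ev c m).toNat.Prime
      · exact Or.inr (Or.inr h4)
      · by_cases h5 : NFD c
        · exact Or.inl ⟨h5, by rw [hnP c h4, h3]⟩
        · exact Or.inr (Or.inl ⟨h2, h5⟩))
  have a3 := ncard_le (Bxx d H)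
    (fun c => ¬ κ * H ≤ c (Fin.last d) ∨ ∃ m : ℕ, 1 ≤ m ∧ (m : ℝ) ≤ c' * Sz H d ∧ (ev c m).toNat.Prime)
    (fun c => ¬ κ * H ≤ c (Fin.last d))
    (fun c => ∃ m : ℕ, 1 ≤ m ∧ (m : ℝ) ≤ c' * Sz H d ∧ (ev c m).toNat.Prime) (fun c _ h => h)
  have a4 := ncard_le (Bxx d H)
    (fun c => ((∀ p ∈ Pw w, Nz c p < p) ∧ ¬ NFD c) ∨
      ∃ m : ℕ, 1 ≤ m ∧ (m : ℝ) ≤ c' * Sz H d ∧ (ev c m).toNat.Prime)
    (fun c => (∀ p ∈ Pw w, Nz c p < p) ∧ ¬ NFD c)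
    (fun c => ∃ m : ℕ, 1 ≤ m ∧ (m : ℝ) ≤ c' * Sz H d ∧ (ev c m).toNat.Prime) (fun c _ h => h)
  have b1 := ncard_le (Bxx d H)
    (fun c => NFD c)
    (fun c => κ * H ≤ ((c (Fin.last d) : ℤ) : ℝ) ∧ (∀ p ∈ Pw w, Nz c p < p))
    (fun c => ¬ κ * H ≤ c (Fin.last d))
    (by
      intro c _ h1
      by_cases h4 : κ * H ≤ ((c (Fin.last d) : ℤ) : ℝ)
      · exact Or.inl ⟨h4, hnz c h1⟩
      · exact Or.inr h4)
  have b2 := ncard_le (Bxx d H)
    (fun c => κ * H ≤ ((c (Fin.last d) : ℤ) : ℝ) ∧ (∀ p ∈ Pw w, Nz c p < p))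
    (fun c => NFD c)
    (fun c => (∀ p ∈ Pw w, Nz c p < p) ∧ ¬ NFD c)
    (by
      rintro c - ⟨_, h2⟩
      by_cases h5 : NFD c
      · exact Or.inl h5
      · exact Or.inr ⟨h2, h5⟩)
  have t1' := abs_le.1 t1
  have t2' := abs_le.1 t2
  refine ⟨abs_le.2 ⟨?_, ?_⟩, abs_le.2 ⟨?_, ?_⟩⟩
  · linarith [t1'.1]
  · linarith [t1'.2]
  · linarith [t2'.1]
  · linarith [t2'.2]

end Pool.Agent.Helper87.PL
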