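import Pool.Agent.Helper91.PL.SBasic

/-!
# MP_bae8ce_ag, module S8 : Fourier transform of the pencil relation
-/

set_option autoImplicit false
set_option linter.unusedSectionVars false

open Finset

namespace PL

noncomputable section

variable {k : Type} [Field k] [Fintype k] [DecidableEq k] {N : ℕ}

/-- The symplectic form. -/
def s8w (x y : k × k) : k := x.1 * y.2 - x.2 * y.1

theorem s8w_add_right (x y z : k × k) : s8w x (y + z) = s8w x y + s8w x z := by
  simp only [s8w, Prod.fst_add, Prod.snd_add]; ring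

theorem s8w_add_left (x y z : k × k) : s8w (x + y) z = s8w x z + s8w y z := by
  simp only [s8w, Prod.fst_add, Prod.snd_add]; ring

theorem s8w_smul_right (c : k) (x y : k × k) : s8w x (c • y) = c * s8w x y := by
  simp only [s8w, Prod.smul_fst, Prod.smul_snd, smul_eq_mul]; ring

theorem s8w_smul_left (c : k) (x y : k × k) : s8w (c • x) y = c * s8w x y := by
  simp only [s8w, Prod.smul_fst, Prod.smul_snd, smul_eq_mul]; ring

theorem s8w_sum_right {ι : Type*} (s : Finset ι) (x : k × k) (f : ι → k × k) :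
    s8w x (∑ i ∈ s, f i) = ∑ i ∈ s, s8w x (f i) := by
  classical
  induction s using Finset.induction_on with
  | empty => simp [s8w]
  | insert a s ha ih => rw [Finset.sum_insert ha, Finset.sum_insert ha, s8w_add_right, ih]

theorem s8w_sum_left {ι : Type*} (s : Finset ι) (f : ι → k × k) (y : k × k) :
    s8w (∑ i ∈ s, f i) y = ∑ i ∈ s, s8w (f i) y := by
  classical
  induction s using Finset.induction_on with
  | empty => simp [s8w]
  | insert a s ha ih => rw [Finset.sum_insert ha, Finset.sum_insert ha, s8w_add_left, ih]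

theorem s8_map_sum {ι : Type*} (ψ : AddChar k ℂ) (s : Finset ι) (f : ι → k) :
    ψ (∑ i ∈ s, f i) = ∏ i ∈ s, ψ (f i) := by
  classical
  induction s using Finset.induction_on with
  | empty => simp
  | insert a s ha ih =>
    rw [Finset.sum_insert ha, Finset.prod_insert ha, AddChar.map_add_eq_mul, ih]

/-- one variable -/
theorem s8_one (ψ : AddChar k ℂ) (hψ : ψ.IsPrimitive) (f : k × k → ℂ)
    (hf : ∀ c : k, c ≠ 0 → ∀ y, f (c • y) = f y) (h0 : f 0 = 0) (hs : ∑ y, f y = 0) (x : k × k) :
    ∑ y, f y * ψ (s8w x y) = (Fintype.card k : ℂ) * f x := by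
  set S : ℂ := ∑ y, f y * ψ (s8w x y) with hS
  set Q : ℂ := (Fintype.card k : ℂ) with hQ
  have h1 : ∀ c : k, c ≠ 0 → ∑ y, f y * ψ (c * s8w x y) = S := by
    intro c hc
    rw [hS]
    refine Fintype.sum_equiv (MulAction.toPerm (Units.mk0 c hc)) _ _ ?_
    intro y
    change f y * ψ (c * s8w x y) = f (c • y) * ψ (s8w x (c • y))
    rw [hf c hc, s8w_smul_right]
  have hcard : ((Finset.univ.erase (0 : k)).card : ℂ) = Q - 1 := by
    rw [Finset.card_erase_of_mem (Finset.mem_univ _), Finset.card_univ,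
      Nat.cast_sub Fintype.card_pos, Nat.cast_one]
  have h2 : ∑ c : k, ∑ y, f y * ψ (c * s8w x y) = (Q - 1) * S := by
    rw [← Finset.add_sum_erase _ _ (Finset.mem_univ (0 : k))]
    have e1 : ∑ y, f y * ψ (0 * s8w x y) = 0 := by
      simp only [zero_mul, AddChar.map_zero_eq_one, mul_one]
      exact hs
    rw [e1, zero_add, Finset.sum_congr rfl fun c hc => h1 c (Finset.ne_of_mem_erase hc),
      Finset.sum_const, nsmul_eq_mul, hcard]
  have h3 : ∑ c : k, ∑ y, f y * ψ (c * s8w x y)
      = Q * ∑ y, if s8w x y = 0 then f y else 0 := by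
    rw [Finset.sum_comm, Finset.mul_sum]
    refine Finset.sum_congr rfl fun y _ => ?_
    rw [← Finset.mul_sum, AddChar.sum_mulShift _ hψ]
    by_cases h : s8w x y = 0
    · rw [if_pos h, if_pos h, mul_comm]
    · rw [if_neg h, if_neg h]; simp
  have hQ0 : Q ≠ 0 := by
    rw [hQ]; exact_mod_cast Fintype.card_ne_zero
  have hQ1 : Q - 1 ≠ 0 := by
    have : (1 : ℕ) < Fintype.card k := Fintype.one_lt_card
    intro h
    have h5 : (Fintype.card k : ℂ) = ((1 : ℕ) : ℂ) := by
      rw [Nat.cast_one]; linear_combination h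
    have h6 := Nat.cast_injective (R := ℂ) h5
    omega
  by_cases hx : x = 0
  · have h4 : ∑ y, (if s8w x y = 0 then f y else 0) = 0 := by
      rw [← hs]
      refine Finset.sum_congr rfl fun y _ => ?_
      rw [if_pos]
      rw [hx]; simp [s8w]
    rw [h3, h4, mul_zero] at h2
    rw [hx, h0, mul_zero]
    rcases mul_eq_zero.1 h2.symm with h | h
    · exact absurd h hQ1
    · exact h
  · have h4 : ∑ y, (if s8w x y = 0 then f y else 0) = (Q - 1) * f x := by
      rw [← Finset.sum_filter]
      have h5 : (Finset.univ.filter fun y : k × k => s8w x y = 0)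
          = Finset.univ.image fun c : k => c • x := by
        ext y
        simp only [Finset.mem_filter, Finset.mem_univ, true_and, Finset.mem_image]
        constructor
        · intro h
          obtain ⟨c, hc⟩ := exists_smul_of_par hx (show par x y by
            unfold par; unfold s8w at h; linear_combination h)
          exact ⟨c, hc.symm⟩
        · rintro ⟨c, rfl⟩
          rw [s8w_smul_right]
          simp [s8w, mul_comm]
      rw [h5, Finset.sum_image]
      · rw [← Finset.add_sum_erase _ _ (Finset.mem_univ (0 : k)), zero_smul, h0, zero_add,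
          Finset.sum_congr rfl fun c hc => hf c (Finset.ne_of_mem_erase hc) x,
          Finset.sum_const, nsmul_eq_mul, hcard]
      · intro c _ c' _ h
        exact smul_left_injective k hx h
    rw [h3, h4] at h2
    apply mul_left_cancel₀ hQ1
    rw [← h2]; ring

/-- all variables -/
theorem s8_all (ψ : AddChar k ℂ) (hψ : ψ.IsPrimitive) (Φ : Tup N k → ℂ)
    (hscale : ∀ c : Fin N → k, (∀ i, c i ≠ 0) → ∀ χ, Φ (fun i => c i • χ i) = Φ χ)
    (hzero : ∀ χ i, χ i = 0 → Φ χ = 0)
    (hmarg : ∀ χ i, ∑ y : k × k, Φ (Function.update χ i y) = 0) (s : Finset (Fin N)) :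
    ∀ ζ : Tup N k, ∑ z : Tup N k, (if ∀ i, i ∉ s → z i = ζ i then
      Φ z * ∏ i ∈ s, ψ (s8w (ζ i) (z i)) else 0) = (Fintype.card k : ℂ) ^ s.card * Φ ζ := by
  classical
  induction s using Finset.induction_on with
  | empty =>
    intro ζ
    simp only [Finset.notMem_empty, not_false_eq_true, forall_const, Finset.prod_empty, mul_one,
      Finset.card_empty, pow_zero, one_mul]
    rw [Finset.sum_eq_single ζ]
    · simp
    · intro z _ hz
      rw [if_neg]
      intro h
      exact hz (funext h)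
    · simp
  | insert j s hj ih =>
    intro ζ
    have h1 := s8_one ψ hψ (fun y => Φ (Function.update ζ j y)) (by
      intro c hc y
      have h2 := hscale (Function.update (fun _ => 1) j c) (by
        intro i
        by_cases h : i = j
        · subst h; simpa using hc
        · simp [h]) (Function.update ζ j y)
      rw [← h2]
      congr 1
      funext i
      by_cases h : i = j
      · subst h; simp
      · simp [h]) (hzero _ j (by simp)) (hmarg ζ j) (ζ j)
    rw [Function.update_eq_self] at h1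
    rw [Finset.card_insert_of_notMem hj, pow_succ, mul_assoc, ← h1, Finset.mul_sum]
    have h2 : ∀ y : k × k, (Fintype.card k : ℂ) ^ s.card *
        (Φ (Function.update ζ j y) * ψ (s8w (ζ j) y)) =
        ∑ z : Tup N k, (if ∀ i, i ∉ s → z i = Function.update ζ j y i then
          Φ z * ∏ i ∈ s, ψ (s8w (ζ i) (z i)) else 0) * ψ (s8w (ζ j) y) := by
      intro y
      rw [← mul_assoc, ← ih (Function.update ζ j y), ← Finset.sum_mul]
      congr 1
      refine Finset.sum_congr rfl fun z _ => ?_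
      split_ifs
      · congr 1
        refine Finset.prod_congr rfl fun i hi => ?_
        have hij : i ≠ j := by
          rintro rfl
          exact hj hi
        rw [Function.update_of_ne hij]
      · rfl
    rw [Finset.sum_congr rfl fun y _ => h2 y, Finset.sum_comm]
    refine Finset.sum_congr rfl fun z _ => ?_
    rw [Finset.sum_eq_single (z j)]
    · have h3 : (∀ i, i ∉ insert j s → z i = ζ i) ↔
          (∀ i, i ∉ s → z i = Function.update ζ j (z j) i) := by
        constructor
        · intro h i hi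
          by_cases hij : i = j
          · subst hij; simp
          · rw [Function.update_of_ne hij]
            exact h i (by simp [hij, hi])
        · intro h i hi
          rw [Finset.mem_insert, not_or] at hi
          have := h i hi.2
          rwa [Function.update_of_ne hi.1] at this
      by_cases h4 : ∀ i, i ∉ insert j s → z i = ζ i
      · rw [if_pos h4, if_pos (h3.1 h4), Finset.prod_insert hj]
        ring
      · rw [if_neg h4, if_neg (fun h => h4 (h3.2 h)), zero_mul]
    · intro y _ hy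
      rw [if_neg, zero_mul]
      intro h
      have := h j hj
      rw [Function.update_self] at this
      exact hy this.symm
    · simp

theorem s8_full (ψ : AddChar k ℂ) (hψ : ψ.IsPrimitive) (Φ : Tup N k → ℂ)
    (hscale : ∀ c : Fin N → k, (∀ i, c i ≠ 0) → ∀ χ, Φ (fun i => c i • χ i) = Φ χ)
    (hzero : ∀ χ i, χ i = 0 → Φ χ = 0)
    (hmarg : ∀ χ i, ∑ y : k × k, Φ (Function.update χ i y) = 0) (ζ : Tup N k) :
    ∑ z : Tup N k, Φ z * ψ (∑ i, s8w (ζ i) (z i)) = (Fintype.card k : ℂ) ^ N * Φ ζ := by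
  have h1 := s8_all ψ hψ Φ hscale hzero hmarg Finset.univ ζ
  rw [Finset.card_univ, Fintype.card_fin] at h1
  rw [← h1]
  refine Finset.sum_congr rfl fun z _ => ?_
  rw [if_pos (fun i hi => absurd (Finset.mem_univ i) hi), s8_map_sum]

/-- an invertible matrix -/
theorem s8_unit (ψ : AddChar k ℂ) (hψ : ψ.IsPrimitive) (Φ : Tup N k → ℂ)
    (hscale : ∀ c : Fin N → k, (∀ i, c i ≠ 0) → ∀ χ, Φ (fun i => c i • χ i) = Φ χ)
    (hzero : ∀ χ i, χ i = 0 → Φ χ = 0)
    (hmarg : ∀ χ i, ∑ y : k × k, Φ (Function.update χ i y) = 0) (ζ : Tup N k)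
    {A B : Matrix (Fin N) (Fin N) k} (h : A * B = 1) :
    ∑ z : Tup N k, Φ (act A z) * ψ (∑ i, s8w (ζ i) (z i))
      = (Fintype.card k : ℂ) ^ N * Φ (act B.transpose ζ) := by
  rw [← s8_full ψ hψ Φ hscale hzero hmarg]
  refine Fintype.sum_equiv (actEquiv A B h (mul_one_comm' h)) _ _ ?_
  intro z
  change Φ (act A z) * ψ (∑ i, s8w (ζ i) (z i)) =
    Φ (act A z) * ψ (∑ i, s8w (act B.transpose ζ i) (act A z i))
  congr 2
  have h2 : ∀ z' : Tup N k, ∑ i, s8w (act B.transpose ζ i) (z' i) =
      ∑ i, s8w (ζ i) (act B z' i) := by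
    intro z'
    simp only [act, s8w_sum_left, s8w_sum_right, s8w_smul_left, s8w_smul_right,
      Matrix.transpose_apply]
    rw [Finset.sum_comm]
  rw [h2, act_inv (mul_one_comm' h)]

/-- a singular matrix -/
theorem s8_sing (ψ : AddChar k ℂ) (hψ : ψ.IsPrimitive) (Φ : Tup N k → ℂ) (ζ : Tup N k)
    {A : Matrix (Fin N) (Fin N) k} {c : Fin N → k} (hc : A.mulVec c = 0)
    (hζ : ∑ j, c j • ζ j ≠ 0) :
    ∑ z : Tup N k, Φ (act A z) * ψ (∑ i, s8w (ζ i) (z i)) = 0 := by
  set ξ := ∑ j, c j • ζ j with hξ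
  set S : ℂ := ∑ z : Tup N k, Φ (act A z) * ψ (∑ i, s8w (ζ i) (z i)) with hS
  have h1 : ∀ y : k × k, S = S * ψ (s8w ξ y) := by
    intro y
    rw [hS, Finset.sum_mul]
    refine Fintype.sum_equiv (Equiv.subRight (fun j => c j • y : Tup N k)) _ _ ?_
    intro z
    change Φ (act A z) * ψ (∑ i, s8w (ζ i) (z i)) =
      Φ (act A (z - fun j => c j • y)) * ψ (∑ i, s8w (ζ i) ((z - fun j => c j • y) i))
        * ψ (s8w ξ y)
    have h2 : act A (z - fun j => c j • y) = act A z := by
      funext i
      simp only [act, Pi.sub_apply, smul_sub, Finset.sum_sub_distrib]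
      have h3 : ∑ j, A i j • c j • y = (0 : k × k) := by
        have h4 : (∑ j, A i j * c j) = 0 := congrFun hc i
        simp only [smul_smul]
        rw [← Finset.sum_smul, h4, zero_smul]
      rw [h3, sub_zero]
    rw [h2, mul_assoc, ← AddChar.map_add_eq_mul]
    congr 2
    rw [hξ, s8w_sum_left, ← Finset.sum_add_distrib]
    refine Finset.sum_congr rfl fun i _ => ?_
    rw [s8w_smul_left, ← s8w_smul_right, ← s8w_add_right]
    congr 1
    simp
  -- find y with `ψ (ω ξ y) ≠ 1`
  have h5 : ∃ y, ψ (s8w ξ y) ≠ 1 := by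
    have h6 : ξ.1 ≠ 0 ∨ ξ.2 ≠ 0 := by
      by_contra h
      push Not at h
      exact hζ (Prod.ext h.1 h.2)
    rcases h6 with h6 | h6
    · have h7 := hψ h6
      rw [AddChar.ne_one_iff] at h7
      obtain ⟨t, ht⟩ := h7
      refine ⟨(0, t), ?_⟩
      rw [AddChar.mulShift_apply] at ht
      simpa [s8w] using ht
    · have h7 := hψ h6
      rw [AddChar.ne_one_iff] at h7
      obtain ⟨t, ht⟩ := h7
      refine ⟨(-t, 0), ?_⟩
      rw [AddChar.mulShift_apply] at ht
      simpa [s8w] using ht
  obtain ⟨y, hy⟩ := h5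
  have h8 := h1 y
  have h9 : S * (ψ (s8w ξ y) - 1) = 0 := by linear_combination -h8
  rcases mul_eq_zero.1 h9 with h | h
  · exact h
  · exact absurd (sub_eq_zero.1 h) hy

open Classical in
theorem fourier_rel (p : ℕ) [Fact p.Prime] (r : ℕ) (k : Type) [Field k] [Fintype k]
    [DecidableEq k] [Algebra (ZMod p) k] (Φ : Tup (r + 2) k → ℝ) (hΦ : Adm0 Φ)
    (hP : Pencil p Φ) (ζ : Tup (r + 2) k) (hζ : Full p ζ) :
    ∑ ε : Fin (r + 2) → Bool, ∑ a : Fin (r + 2) → Fin r → ZMod p,
      (if IsUnit (GM ε a).det then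
        sg ε * Φ (act (bc ((GM ε a)⁻¹.transpose)) ζ) else 0) = 0 := by
  set ψ : AddChar k ℂ := AddChar.FiniteField.primitiveChar_to_Complex k with hψd
  have hψ : ψ.IsPrimitive := AddChar.FiniteField.primitiveChar_to_Complex_isPrimitive k
  set Ψ : Tup (r + 2) k → ℂ := fun χ => (Φ χ : ℂ) with hΨ
  have hscale : ∀ c : Fin (r + 2) → k, (∀ i, c i ≠ 0) → ∀ χ, Ψ (fun i => c i • χ i) = Ψ χ := by
    intro c hc χ
    simp only [hΨ]
    rw [hΦ.scale c hc χ]
  have hzero : ∀ χ i, χ i = 0 → Ψ χ = 0 := by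
    intro χ i h
    simp only [hΨ]
    rw [hΦ.zero χ i h, Complex.ofReal_zero]
  have hmarg : ∀ χ i, ∑ y : k × k, Ψ (Function.update χ i y) = 0 := by
    intro χ i
    simp only [hΨ]
    rw [← Complex.ofReal_sum, hΦ.marg χ i, Complex.ofReal_zero]
  have hbc : ∀ A B : Matrix (Fin (r + 2)) (Fin (r + 2)) (ZMod p), A * B = 1 →
      bc (k := k) A * bc B = 1 := by
    intro A B h
    unfold bc
    rw [← Matrix.map_mul, h]
    exact Matrix.map_one _ (map_zero _) (map_one _)
  have hT : ∀ (ε : Fin (r + 2) → Bool) (a : Fin (r + 2) → Fin r → ZMod p),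
      ∑ z : Tup (r + 2) k, Ψ (act (bc (GM ε a)) z) * ψ (∑ i, s8w (ζ i) (z i)) =
        if IsUnit (GM ε a).det then (Fintype.card k : ℂ) ^ (r + 2) *
          Ψ (act (bc ((GM ε a)⁻¹.transpose)) ζ) else 0 := by
    intro ε a
    by_cases hu : IsUnit (GM ε a).det
    · rw [if_pos hu]
      have h1 : GM ε a * (GM ε a)⁻¹ = 1 := Matrix.mul_nonsing_inv _ hu
      have h2 := s8_unit ψ hψ Ψ hscale hzero hmarg ζ (hbc _ _ h1)
      rw [h2]
      rfl
    · rw [if_neg hu]
      have h1 : (GM ε a).det = 0 := by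
        by_contra h
        exact hu (isUnit_iff_ne_zero.2 h)
      obtain ⟨c, hc0, hc⟩ := Matrix.exists_mulVec_eq_zero_iff.2 h1
      refine s8_sing ψ hψ Ψ ζ (c := fun j => algebraMap (ZMod p) k (c j)) ?_ (hζ c hc0)
      funext i
      have h2 := congrFun hc i
      have h3 : algebraMap (ZMod p) k (∑ j, GM ε a i j * c j) = 0 := by
        have h4 : (∑ j, GM ε a i j * c j) = 0 := h2
        rw [h4, map_zero]
      rw [map_sum] at h3
      simp only [map_mul] at h3
      exact h3
  have hsum : ∑ z : Tup (r + 2) k, (∑ ε : Fin (r + 2) → Bool,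
      ∑ a : Fin (r + 2) → Fin r → ZMod p, (sg ε : ℂ) * Ψ (act (bc (GM ε a)) z))
        * ψ (∑ i, s8w (ζ i) (z i)) = 0 := by
    refine Finset.sum_eq_zero fun z _ => ?_
    have h1 := hP z
    have h2 : (∑ ε : Fin (r + 2) → Bool, ∑ a : Fin (r + 2) → Fin r → ZMod p,
        (sg ε : ℂ) * Ψ (act (bc (GM ε a)) z)) = 0 := by
      have h3 := congrArg (fun x : ℝ => (x : ℂ)) h1
      simp only [Complex.ofReal_sum, Complex.ofReal_mul, Complex.ofReal_zero] at h3
      exact h3
    rw [h2, zero_mul]
  have hswap : ∑ z : Tup (r + 2) k, (∑ ε : Fin (r + 2) → Bool,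
      ∑ a : Fin (r + 2) → Fin r → ZMod p, (sg ε : ℂ) * Ψ (act (bc (GM ε a)) z))
        * ψ (∑ i, s8w (ζ i) (z i)) =
      ∑ ε : Fin (r + 2) → Bool, ∑ a : Fin (r + 2) → Fin r → ZMod p,
        (sg ε : ℂ) * ∑ z : Tup (r + 2) k, Ψ (act (bc (GM ε a)) z) *
          ψ (∑ i, s8w (ζ i) (z i)) := by
    simp only [Finset.sum_mul, Finset.mul_sum]
    rw [Finset.sum_comm]
    refine Finset.sum_congr rfl fun ε _ => ?_
    rw [Finset.sum_comm]
    refine Finset.sum_congr rfl fun a _ => ?_
    refine Finset.sum_congr rfl fun z _ => ?_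
    ring
  rw [hswap] at hsum
  have hQ0 : (Fintype.card k : ℂ) ^ (r + 2) ≠ 0 :=
    pow_ne_zero _ (by exact_mod_cast Fintype.card_ne_zero)
  have hfin : (Fintype.card k : ℂ) ^ (r + 2) *
      ((∑ ε : Fin (r + 2) → Bool, ∑ a : Fin (r + 2) → Fin r → ZMod p,
      (if IsUnit (GM ε a).det then
        sg ε * Φ (act (bc ((GM ε a)⁻¹.transpose)) ζ) else 0) : ℝ) : ℂ) = 0 := by
    rw [← hsum]
    push_cast
    rw [Finset.mul_sum]
    refine Finset.sum_congr rfl fun ε _ => ?_
    rw [Finset.mul_sum]
    refine Finset.sum_congr rfl fun a _ => ?_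
    rw [hT]
    split_ifs
    · simp only [hΨ]; push_cast; ring
    · simp
  rcases mul_eq_zero.1 hfin with h | h
  · exact absurd h hQ0
  · exact_mod_cast h

end

end PL
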